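import Pool.Agent.Helper20.Griff.Goals

/-! Packet G-A5: the values of `N(d)²` on the monomials in `e₁, e₂, e₃`. -/

namespace Pool.Agent.Helper50.GriffCE

open Pool.Agent.Helper20.Griff

variable {S : Type} [CommRing S]

/-- The scalar product. -/
def dot (a b : Fin 15 → S) : S :=
  a 0 * b 0 + a 1 * b 1 + a 2 * b 2 + a 3 * b 3 + a 4 * b 4 + a 5 * b 5 + a 6 * b 6 + a 7 * b 7
    + a 8 * b 8 + a 9 * b 9 + a 10 * b 10 + a 11 * b 11 + a 12 * b 12 + a 13 * b 13 + a 14 * b 14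

/-- The polarisation of `sharp`. -/
def cross (u v : Fin 15 → S) : Fin 15 → S :=
  ![u 1 * v 2 + u 2 * v 1 - (u 3 * v 6 + u 6 * v 3 - (u 4 * v 5 + u 5 * v 4)),
    u 0 * v 2 + u 2 * v 0 - (u 7 * v 10 + u 10 * v 7 - (u 8 * v 9 + u 9 * v 8)),
    u 0 * v 1 + u 1 * v 0 - (u 11 * v 14 + u 14 * v 11 - (u 12 * v 13 + u 13 * v 12)),
    - (u 0 * v 6 + u 6 * v 0) + (u 11 * v 7 + u 7 * v 11) + (u 13 * v 8 + u 8 * v 13),
    (u 0 * v 5 + u 5 * v 0) + (u 11 * v 9 + u 9 * v 11) + (u 13 * v 10 + u 10 * v 13),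
    (u 0 * v 4 + u 4 * v 0) + (u 12 * v 7 + u 7 * v 12) + (u 14 * v 8 + u 8 * v 14),
    - (u 0 * v 3 + u 3 * v 0) + (u 12 * v 9 + u 9 * v 12) + (u 14 * v 10 + u 10 * v 14),
    - (u 1 * v 10 + u 10 * v 1) + (u 11 * v 3 + u 3 * v 11) + (u 12 * v 5 + u 5 * v 12),
    (u 1 * v 9 + u 9 * v 1) + (u 13 * v 3 + u 3 * v 13) + (u 14 * v 5 + u 5 * v 14),
    (u 1 * v 8 + u 8 * v 1) + (u 11 * v 4 + u 4 * v 11) + (u 12 * v 6 + u 6 * v 12),
    - (u 1 * v 7 + u 7 * v 1) + (u 13 * v 4 + u 4 * v 13) + (u 14 * v 6 + u 6 * v 14),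
    - (u 2 * v 14 + u 14 * v 2) + (u 3 * v 7 + u 7 * v 3) + (u 4 * v 9 + u 9 * v 4),
    (u 2 * v 13 + u 13 * v 2) + (u 5 * v 7 + u 7 * v 5) + (u 6 * v 9 + u 9 * v 6),
    (u 2 * v 12 + u 12 * v 2) + (u 3 * v 8 + u 8 * v 3) + (u 4 * v 10 + u 10 * v 4),
    - (u 2 * v 11 + u 11 * v 2) + (u 5 * v 8 + u 8 * v 5) + (u 6 * v 10 + u 10 * v 6)]

variable (d : Fin 15 → Derivation ℤ S S)

/-- The gradient. -/
def D1 (f : S) : Fin 15 → S := fun i => d i f

/-- The second order operators. -/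
def D2 (f : S) : Fin 15 → S := sharpOp (fun i f => d i f) f

/-- The third order operator. -/
def D3 (f : S) : S := cubOp (fun i f => d i f) f

theorem D1_mul (f g : S) : D1 d (f * g) = f • D1 d g + g • D1 d f := by
  funext i
  simp [D1, Derivation.leibniz]

theorem D2_mul (f g : S) : D2 d (f * g) = f • D2 d g + g • D2 d f + cross (D1 d f) (D1 d g) := by
  funext i
  fin_cases i <;>
  · simp only [D2, sharpOp, cross, D1, Pi.add_apply, Pi.smul_apply, smul_eq_mul,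
      Derivation.leibniz, map_add, Matrix.cons_val, Fin.reduceFinMk, Fin.zero_eta, Fin.mk_one]
    ring

theorem D3_mul (f g : S) : D3 d (f * g) = f * D3 d g + g * D3 d f + dot (D2 d f) (D1 d g) +
    dot (D1 d f) (D2 d g) := by
  simp only [D3, D2, sharpOp, cubOp, D1, dot, smul_eq_mul,
    Derivation.leibniz, map_add, Matrix.cons_val]
  ring

theorem D3_add (f g : S) : D3 d (f + g) = D3 d f + D3 d g := by
  simp only [D3, cubOp, map_add]
  ring

/-- The operator `D3` as an additive map. -/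
def D3h : S →+ S where
  toFun := D3 d
  map_zero' := by simp [D3, cubOp]
  map_add' := D3_add d

theorem D3_zsmul (c : ℤ) (f : S) : D3 d (c • f) = c • D3 d f := map_zsmul (D3h d) c f

theorem dot_add_left (a b c : Fin 15 → S) : dot (a + b) c = dot a c + dot b c := by
  simp only [dot, Pi.add_apply]; ring

theorem dot_add_right (a b c : Fin 15 → S) : dot c (a + b) = dot c a + dot c b := by
  simp only [dot, Pi.add_apply]; ring

theorem dot_smul_left (x : S) (a c : Fin 15 → S) : dot (x • a) c = x * dot a c := by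
  simp only [dot, Pi.smul_apply, smul_eq_mul]; ring

theorem dot_smul_right (x : S) (a c : Fin 15 → S) : dot c (x • a) = x * dot c a := by
  simp only [dot, Pi.smul_apply, smul_eq_mul]; ring

theorem dot_comm (a c : Fin 15 → S) : dot c a = dot a c := by
  simp only [dot]; ring

theorem dot_zero_left (c : Fin 15 → S) : dot 0 c = 0 := by
  simp [dot]

theorem dot_zero_right (c : Fin 15 → S) : dot c 0 = 0 := by
  simp [dot]

theorem cross_smul_smul (x y : S) (a c : Fin 15 → S) : cross (x • a) (y • c) = (x * y) • cross a c := by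
  funext i
  fin_cases i <;>
  · simp only [cross, Pi.smul_apply, smul_eq_mul, Matrix.cons_val, Fin.reduceFinMk, Fin.zero_eta,
      Fin.mk_one]
    ring

/-- The identity element. -/
def one : Fin 15 → S := ![1, 1, 1, 0, 0, 0, 0, 0, 0, 0, 0, 0, 0, 0, 0]

/-- The gradient of `e₂`. -/
def qv (z : Fin 15 → S) : Fin 15 → S :=
  ![z 1 + z 2, z 0 + z 2, z 0 + z 1, - z 6, z 5, z 4, - z 3, - z 10, z 9, z 8, - z 7,
    - z 14, z 13, z 12, - z 11]

theorem cross_one_one : cross (one : Fin 15 → S) one = (2 : S) • one := by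
  funext i
  fin_cases i <;>
  · simp only [cross, one, Pi.smul_apply, smul_eq_mul, Matrix.cons_val, Fin.reduceFinMk,
      Fin.zero_eta, Fin.mk_one]
    ring

theorem dot_one_one : dot (one : Fin 15 → S) one = 3 := by
  simp only [dot, one, Matrix.cons_val]; ring

theorem dot_one_q (z : Fin 15 → S) : dot one (qv z) = 2 * e₁ z := by
  simp only [dot, one, qv, e₁, Matrix.cons_val]; ring

theorem dot_one_s (z : Fin 15 → S) : dot one (sharp z) = e₂ z := by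
  simp only [dot, one, sharp, e₂, Matrix.cons_val]; ring

theorem dot_one_z (z : Fin 15 → S) : dot one z = e₁ z := by
  simp only [dot, one, e₁, Matrix.cons_val]; ring

theorem dot_q_z (z : Fin 15 → S) : dot (qv z) z = 2 * e₂ z := by
  simp only [dot, qv, e₂, Matrix.cons_val]; ring

theorem dot_s_z (z : Fin 15 → S) : dot (sharp z) z = 3 * cub z := by
  simp only [dot, sharp, cub, Matrix.cons_val]; ring

theorem dot_qq_q (z : Fin 15 → S) : dot (cross (qv z) (qv z)) (qv z) =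
    6 * (e₁ z * e₂ z - cub z) := by
  simp only [dot, cross, qv, cub, e₁, e₂, Matrix.cons_val]; ring

theorem dot_qq_one (z : Fin 15 → S) : dot (cross (qv z) (qv z)) one =
    2 * (e₁ z ^ 2 + e₂ z) := by
  simp only [dot, cross, qv, one, e₁, e₂, Matrix.cons_val]; ring

theorem dot_qs_one (z : Fin 15 → S) : dot (cross (qv z) (sharp z)) one =
    e₁ z * e₂ z + 3 * cub z := by
  simp only [dot, cross, qv, one, sharp, cub, e₁, e₂, Matrix.cons_val]; ring

section jets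

variable {d} {z : Fin 15 → S} (hz : ∀ i j, d i (z j) = if i = j then 1 else 0)

include hz

theorem D1_e1 : D1 d (e₁ z) = one := by
  funext i
  fin_cases i <;> simp [D1, e₁, one, hz]

theorem D1_e2 : D1 d (e₂ z) = qv z := by
  funext i
  fin_cases i <;> simp [D1, e₂, qv, hz]

theorem D1_e3 : D1 d (cub z) = sharp z := by
  funext i
  fin_cases i <;> simp [D1, cub, sharp, hz] <;> ring

theorem D2_e1 : D2 d (e₁ z) = 0 := by
  have h : ∀ i, d i (e₁ z) = (one : Fin 15 → S) i := fun i => congrFun (D1_e1 hz) i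
  funext i
  fin_cases i <;> simp [D2, sharpOp, h, one]

theorem D3_e1 : D3 d (e₁ z) = 0 := by
  have h : ∀ i, d i (e₁ z) = (one : Fin 15 → S) i := fun i => congrFun (D1_e1 hz) i
  simp [D3, cubOp, h, one]

theorem D2_e2 : D2 d (e₂ z) = (3 : S) • one := by
  have h : ∀ i, d i (e₂ z) = qv z i := fun i => congrFun (D1_e2 hz) i
  funext i
  fin_cases i <;> simp [D2, sharpOp, h, qv, one, hz] <;> ring

theorem D3_e2 : D3 d (e₂ z) = 0 := by
  have h : ∀ i, d i (e₂ z) = qv z i := fun i => congrFun (D1_e2 hz) i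
  simp [D3, cubOp, h, qv, hz]

theorem D2_e3 : D2 d (cub z) = (3 : S) • z := by
  have h : ∀ i, d i (cub z) = sharp z i := fun i => congrFun (D1_e3 hz) i
  funext i
  fin_cases i <;> simp [D2, sharpOp, h, sharp, hz] <;> ring

theorem D3_e3 : D3 d (cub z) = 15 := by
  have h : ∀ i, d i (cub z) = sharp z i := fun i => congrFun (D1_e3 hz) i
  simp [D3, cubOp, h, sharp, hz]
  ring

theorem D1_e11 : D1 d (e₁ z ^ 2) = (2 * e₁ z) • one := by
  rw [pow_two, D1_mul, D1_e1 hz]; module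

theorem D2_e11 : D2 d (e₁ z ^ 2) = (2 : S) • one := by
  rw [pow_two, D2_mul, D2_e1 hz, D1_e1 hz, cross_one_one]; module

theorem D3_e11 : D3 d (e₁ z ^ 2) = 0 := by
  rw [pow_two, D3_mul, D3_e1 hz, D2_e1 hz, dot_zero_left, dot_zero_right]; ring

theorem D1_e111 : D1 d (e₁ z ^ 3) = (3 * e₁ z ^ 2) • one := by
  rw [pow_succ, D1_mul, D1_e1 hz, D1_e11 hz]; module

theorem D2_e111 : D2 d (e₁ z ^ 3) = (6 * e₁ z) • one := by
  rw [pow_succ, D2_mul, D2_e1 hz, D1_e1 hz, D1_e11 hz, D2_e11 hz,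
    ← one_smul S (one : Fin 15 → S), cross_smul_smul, one_smul, cross_one_one]
  module

theorem D3_e111 : D3 d (e₁ z ^ 3) = 6 := by
  rw [pow_succ, D3_mul, D3_e1 hz, D2_e1 hz, D1_e1 hz, D1_e11 hz, D2_e11 hz, D3_e11 hz,
    dot_zero_right, dot_smul_left, dot_one_one]
  ring

theorem D1_e1111 : D1 d (e₁ z ^ 4) = (4 * e₁ z ^ 3) • one := by
  rw [show e₁ z ^ 4 = e₁ z ^ 2 * e₁ z ^ 2 by ring, D1_mul, D1_e11 hz]; module

theorem D2_e1111 : D2 d (e₁ z ^ 4) = (12 * e₁ z ^ 2) • one := by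
  rw [show e₁ z ^ 4 = e₁ z ^ 2 * e₁ z ^ 2 by ring, D2_mul, D2_e11 hz, D1_e11 hz,
    cross_smul_smul, cross_one_one]
  module

theorem D3_e1111 : D3 d (e₁ z ^ 4) = 24 * e₁ z := by
  rw [show e₁ z ^ 4 = e₁ z ^ 2 * e₁ z ^ 2 by ring, D3_mul, D2_e11 hz, D1_e11 hz, D3_e11 hz,
    dot_smul_left, dot_smul_right, dot_smul_left, dot_smul_right, dot_one_one]
  ring

theorem D1_e22 : D1 d (e₂ z ^ 2) = (2 * e₂ z) • qv z := by
  rw [pow_two, D1_mul, D1_e2 hz]; module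

theorem D2_e22 : D2 d (e₂ z ^ 2) = (6 * e₂ z) • one + cross (qv z) (qv z) := by
  rw [pow_two, D2_mul, D2_e2 hz, D1_e2 hz]; module

theorem D3_e22 : D3 d (e₂ z ^ 2) = 12 * e₁ z := by
  rw [pow_two, D3_mul, D3_e2 hz, D2_e2 hz, D1_e2 hz, dot_smul_left, dot_smul_right,
    dot_comm one (qv z), dot_one_q]
  ring

theorem D2_e23 : D2 d (e₂ z * cub z) = (3 * e₂ z) • z + (3 * cub z) • one +
    cross (qv z) (sharp z) := by
  rw [D2_mul, D2_e2 hz, D1_e2 hz, D1_e3 hz, D2_e3 hz]; module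

theorem D3_e23 : D3 d (e₂ z * cub z) = 24 * e₂ z := by
  rw [D3_mul, D3_e2 hz, D3_e3 hz, D2_e2 hz, D2_e3 hz, D1_e2 hz, D1_e3 hz, dot_smul_left,
    dot_smul_right, dot_one_s, dot_q_z]
  ring

/-- first application -/
theorem F1 : D3 d (e₁ z ^ 6) = (120 : ℤ) • e₁ z ^ 3 := by
  rw [show e₁ z ^ 6 = e₁ z ^ 3 * e₁ z ^ 3 by ring, D3_mul, D3_e111 hz, D2_e111 hz, D1_e111 hz,
    dot_smul_left, dot_smul_right, dot_smul_left, dot_smul_right, dot_one_one, zsmul_eq_mul]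
  push_cast
  ring

theorem F2 : D3 d (e₁ z ^ 4 * e₂ z) = (60 : ℤ) • e₁ z ^ 3 + (24 : ℤ) • (e₁ z * e₂ z) := by
  rw [D3_mul, D3_e1111 hz, D2_e1111 hz, D1_e1111 hz, D3_e2 hz, D2_e2 hz, D1_e2 hz,
    dot_smul_left, dot_smul_left, dot_smul_right, dot_one_one, dot_one_q, zsmul_eq_mul,
    zsmul_eq_mul]
  push_cast
  ring

theorem F3 : D3 d (e₁ z ^ 3 * cub z) = (24 : ℤ) • e₁ z ^ 3 + (6 : ℤ) • (e₁ z * e₂ z) +
    (6 : ℤ) • cub z := by
  rw [D3_mul, D3_e111 hz, D2_e111 hz, D1_e111 hz, D3_e3 hz, D2_e3 hz, D1_e3 hz,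
    dot_smul_left, dot_smul_left, dot_smul_right, dot_one_s, dot_one_z, zsmul_eq_mul,
    zsmul_eq_mul, zsmul_eq_mul]
  push_cast
  ring

theorem F4 : D3 d (e₁ z ^ 2 * e₂ z ^ 2) = (16 : ℤ) • e₁ z ^ 3 + (48 : ℤ) • (e₁ z * e₂ z) := by
  rw [D3_mul, D3_e11 hz, D2_e11 hz, D1_e11 hz, D3_e22 hz, D2_e22 hz, D1_e22 hz,
    dot_smul_left, dot_smul_left, dot_smul_right, dot_add_right, dot_smul_right, dot_one_one,
    dot_one_q, dot_comm (cross (qv z) (qv z)) one, dot_qq_one, zsmul_eq_mul, zsmul_eq_mul]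
  push_cast
  ring

theorem F5 : D3 d (e₁ z * e₂ z * cub z) = (28 : ℤ) • (e₁ z * e₂ z) + (12 : ℤ) • cub z := by
  rw [mul_assoc, D3_mul, D3_e1 hz, D2_e1 hz, D1_e1 hz, D3_e23 hz, D2_e23 hz,
    dot_zero_left, dot_add_right, dot_add_right, dot_smul_right, dot_smul_right, dot_one_z,
    dot_one_one, dot_comm (cross (qv z) (sharp z)) one, dot_qs_one, zsmul_eq_mul, zsmul_eq_mul]
  push_cast
  ring

theorem F6 : D3 d (e₂ z ^ 3) = (42 : ℤ) • (e₁ z * e₂ z) + (-6 : ℤ) • cub z := by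
  rw [pow_succ, D3_mul, D3_e22 hz, D2_e22 hz, D1_e22 hz, D3_e2 hz, D2_e2 hz, D1_e2 hz,
    dot_add_left, dot_smul_left, dot_smul_left, dot_smul_right, dot_qq_q, dot_one_q,
    dot_comm one (qv z), dot_one_q, zsmul_eq_mul, zsmul_eq_mul]
  push_cast
  ring

theorem F7 : D3 d (cub z ^ 2) = (48 : ℤ) • cub z := by
  rw [pow_two, D3_mul, D3_e3 hz, D2_e3 hz, D1_e3 hz, dot_smul_left, dot_smul_right,
    dot_comm (sharp z) z, dot_s_z, zsmul_eq_mul]
  push_cast
  ring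

theorem D3_e12 : D3 d (e₁ z * e₂ z) = 9 := by
  rw [D3_mul, D3_e1 hz, D2_e1 hz, D1_e1 hz, D3_e2 hz, D2_e2 hz, dot_zero_left, dot_smul_right,
    dot_one_one]
  ring

end jets

/-- Packet G-A5. -/
theorem stmtE : StmtE := by
  intro S _ d _ z hz
  have h : ∀ f, cubOp (fun i f => d i f) (cubOp (fun i f => d i f) f) = D3 d (D3 d f) :=
    fun f => rfl
  intro D
  refine ⟨?_, ?_, ?_, ?_, ?_, ?_, ?_⟩
  · change D3 d (D3 d _) = _
    rw [F1 hz, D3_zsmul, D3_e111 hz, zsmul_eq_mul]; norm_num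
  · change D3 d (D3 d _) = _
    rw [F2 hz, D3_add, D3_zsmul, D3_zsmul, D3_e111 hz, D3_e12 hz, zsmul_eq_mul, zsmul_eq_mul]
    norm_num
  · change D3 d (D3 d _) = _
    rw [F3 hz, D3_add, D3_add, D3_zsmul, D3_zsmul, D3_zsmul, D3_e111 hz, D3_e12 hz, D3_e3 hz,
      zsmul_eq_mul, zsmul_eq_mul, zsmul_eq_mul]
    norm_num
  · change D3 d (D3 d _) = _
    rw [F4 hz, D3_add, D3_zsmul, D3_zsmul, D3_e111 hz, D3_e12 hz, zsmul_eq_mul, zsmul_eq_mul]
    norm_num
  · change D3 d (D3 d _) = _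
    rw [F5 hz, D3_add, D3_zsmul, D3_zsmul, D3_e12 hz, D3_e3 hz, zsmul_eq_mul, zsmul_eq_mul]
    norm_num
  · change D3 d (D3 d _) = _
    rw [F6 hz, D3_add, D3_zsmul, D3_zsmul, D3_e12 hz, D3_e3 hz, zsmul_eq_mul, zsmul_eq_mul]
    norm_num
  · change D3 d (D3 d _) = _
    rw [F7 hz, D3_zsmul, D3_e3 hz, zsmul_eq_mul]; norm_num

end Pool.Agent.Helper50.GriffCE
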